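import Mathlib

/-!
Lacunary products `∏ w_j (z^{n_j})` in terms of their Taylor coefficients (mixed radix digits).
-/

set_option autoImplicit false

open Finset Filter Topology

namespace Pool.Agent.H270R3.BR

/-- degrees of the factors -/
def M (j : ℕ) : ℕ := 64 ^ (j + 1)

/-- frequencies -/
def n : ℕ → ℕ
  | 0 => 1
  | (j + 1) => (2 * M j + 1) * n j

theorem M_pos (j : ℕ) : 0 < M j := by unfold M; positivity

theorem n_pos (j : ℕ) : 0 < n j := by
  induction j with
  | zero => simp [n]
  | succ j ih => simp only [n]; positivity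

theorem n_succ (j : ℕ) : n (j + 1) = (2 * M j + 1) * n j := rfl

theorem n_lt_succ (j : ℕ) : n j < n (j + 1) := by
  rw [n_succ]
  have h1 := n_pos j
  have h2 := M_pos j
  nlinarith

theorem lt_n (j : ℕ) : 2 * j < n j := by
  induction j with
  | zero => simp [n]
  | succ j ih =>
    rw [n_succ]
    have h2 := M_pos j
    nlinarith

theorem n_mono : Monotone n := monotone_nat_of_le_succ fun j => (n_lt_succ j).le

/-- coefficients of the product of the first `N` factors -/
noncomputable def D (w : ℕ → ℕ → ℝ) : ℕ → ℕ → ℝ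
  | 0, t => if t = 0 then 1 else 0
  | (N + 1), t => w N (t / n N) * D w N (t % n N)

theorem D_succ (w : ℕ → ℕ → ℝ) (N t : ℕ) :
    D w (N + 1) t = w N (t / n N) * D w N (t % n N) := rfl

/-- admissible families -/
structure Adm (w : ℕ → ℕ → ℝ) : Prop where
  zero : ∀ j, w j 0 = 1
  big : ∀ j k, M j < k → w j k = 0

variable {w : ℕ → ℕ → ℝ}

theorem D_support (hw : Adm w) (N t : ℕ) (h : n N ≤ 2 * t) : D w N t = 0 := by
  induction N generalizing t with
  | zero =>
    simp only [n] at h
    simp only [D]
    rw [if_neg]; omega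
  | succ N ih =>
    rw [D_succ]
    by_cases hk : M N < t / n N
    · rw [hw.big _ _ hk, zero_mul]
    · rw [ih (t % n N), mul_zero]
      by_contra hr
      push Not at hr hk
      have h1 := Nat.div_add_mod t (n N)
      rw [n_succ] at h
      have : n N * (t / n N) ≤ n N * M N := Nat.mul_le_mul_left _ hk
      nlinarith

theorem D_stable_step (hw : Adm w) (N t : ℕ) (h : t < n N) : D w (N + 1) t = D w N t := by
  rw [D_succ, Nat.div_eq_of_lt h, Nat.mod_eq_of_lt h, hw.zero, one_mul]

theorem D_stable (hw : Adm w) {N N' : ℕ} (hN : N ≤ N') (t : ℕ) (h : t < n N) :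
    D w N' t = D w N t := by
  induction N', hN using Nat.le_induction with
  | base => rfl
  | succ K hK ih => rw [D_stable_step hw K t (h.trans_le (n_mono hK)), ih]

/-- coefficients of the infinite product -/
noncomputable def lim (w : ℕ → ℕ → ℝ) (t : ℕ) : ℝ := D w t t

theorem lim_eq (hw : Adm w) (N t : ℕ) (h : t < n N) : lim w t = D w N t := by
  unfold lim
  rcases le_total N t with h1 | h1
  · exact D_stable hw h1 t h
  · exact (D_stable hw h1 t (by have := lt_n t; omega)).symm

theorem D_zero (hw : Adm w) (N : ℕ) : D w N 0 = 1 := by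
  induction N with
  | zero => simp [D]
  | succ N ih => rw [D_stable_step hw N 0 (n_pos N), ih]

theorem lim_zero (hw : Adm w) : lim w 0 = 1 := D_zero hw 0

/-- block sums -/
theorem sum_blocks {g' g c : ℕ → ℝ} {q : ℕ} (hq : 0 < q)
    (hg : ∀ t, g' t = c (t / q) * g (t % q)) (k r : ℕ) (hr : r ≤ q) :
    ∑ t ∈ range (k * q + r), g' t
      = (∑ i ∈ range k, c i) * (∑ t ∈ range q, g t) + c k * ∑ t ∈ range r, g t := by
  have key : ∀ k r : ℕ, r ≤ q → ∑ t ∈ range r, g' (k * q + t) = c k * ∑ t ∈ range r, g t := by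
    intro k r hr
    rw [mul_sum]
    refine sum_congr rfl fun t ht => ?_
    have htr : t < q := (mem_range.1 ht).trans_le hr
    rw [hg]
    have h1 : (k * q + t) / q = k := by
      rw [mul_comm, Nat.mul_add_div hq, Nat.div_eq_of_lt htr, add_zero]
    have h2 : (k * q + t) % q = t := by
      rw [mul_comm, Nat.mul_add_mod, Nat.mod_eq_of_lt htr]
    rw [h1, h2]
  rw [sum_range_add, key k r hr]
  congr 1
  induction k with
  | zero => simp
  | succ k ih =>
    rw [add_mul, one_mul, sum_range_add, ih, key k q le_rfl, sum_range_succ, add_mul]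

end Pool.Agent.H270R3.BR
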