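import Mathlib
import Pool.Agent.H270R3.BRSeq

/-!
The two coefficient families and the vanishing of the coefficients `c_m`.
-/

set_option autoImplicit false

open Finset Filter Topology

namespace Pool.Agent.H270R3.BR

/-- coefficients of `u_j` -/
noncomputable def uc (j k : ℕ) : ℝ :=
  if k = 0 then 1 else if k ≤ M j then -(1 / 16 ^ (j + 1)) else 0

/-- coefficients of `v_j` -/
noncomputable def vc (j k : ℕ) : ℝ :=
  if k = 0 then 1 else if k ≤ M j then 2 * (1 / 4 ^ (j + 1)) * (1 - k / (M j + 1)) else 0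

theorem uc_adm : Adm uc where
  zero j := by simp [uc]
  big j k h := by
    have : k ≠ 0 := by omega
    simp [uc, this, not_le.2 h]

theorem vc_adm : Adm vc where
  zero j := by simp [vc]
  big j k h := by
    have : k ≠ 0 := by omega
    simp [vc, this, not_le.2 h]

theorem M_cast (j : ℕ) : (M j : ℝ) = 16 ^ (j + 1) * 4 ^ (j + 1) := by
  unfold M
  push_cast
  rw [← mul_pow]; norm_num

/-- the sum of the products of the coefficients vanishes -/
theorem sum_uv (j : ℕ) : ∑ k ∈ range (M j + 1), uc j k * vc j k = 0 := by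
  rw [sum_range_succ']
  have h1 : ∀ k ∈ range (M j), uc j (k + 1) * vc j (k + 1)
      = -(2 / M j) * (1 - ((k : ℝ) + 1) / (M j + 1)) := by
    intro k hk
    have hk' : k + 1 ≤ M j := by have := mem_range.1 hk; omega
    simp only [uc, vc, Nat.succ_ne_zero, if_false, hk', if_true, M_cast]
    push_cast
    have h16 : (16 : ℝ) ^ (j + 1) ≠ 0 := by positivity
    have h4 : (4 : ℝ) ^ (j + 1) ≠ 0 := by positivity
    field_simp
  rw [sum_congr rfl h1, ← mul_sum, sum_sub_distrib, ← sum_div, sum_add_distrib]
  simp only [sum_const, card_range, nsmul_eq_mul, mul_one]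
  have h2 : ∑ k ∈ range (M j), (k : ℝ) = M j * (M j - 1) / 2 := by
    generalize M j = m
    induction m with
    | zero => simp
    | succ m ih => rw [sum_range_succ, ih]; push_cast; ring
  rw [h2]
  have hM : (0 : ℝ) < M j := by exact_mod_cast M_pos j
  simp only [uc, vc, if_true]
  field_simp
  ring

theorem abs_uv_le (j k : ℕ) (hk : k ≠ 0) : |uc j k * vc j k| ≤ 2 / M j := by
  by_cases h : k ≤ M j
  · simp only [uc, vc, hk, if_false, h, if_true]
    have hM : (0 : ℝ) < M j := by exact_mod_cast M_pos j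
    have h1 : (k : ℝ) / (M j + 1) ≤ 1 := by
      rw [div_le_one (by positivity)]
      have : (k : ℝ) ≤ M j := by exact_mod_cast h
      linarith
    have h0 : 0 ≤ (k : ℝ) / (M j + 1) := by positivity
    have h16 : (0 : ℝ) < (16 : ℝ) ^ (j + 1) := by positivity
    have h4 : (0 : ℝ) < (4 : ℝ) ^ (j + 1) := by positivity
    have e : -(1 / (16 : ℝ) ^ (j + 1)) * (2 * (1 / 4 ^ (j + 1)) * (1 - k / (M j + 1)))
        = -(2 / M j * (1 - k / (M j + 1))) := by
      rw [M_cast]; field_simp
    rw [e, abs_neg, abs_of_nonneg (by apply mul_nonneg (by positivity); linarith)]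
    have : 2 / (M j : ℝ) * (1 - k / (M j + 1)) ≤ 2 / M j * 1 := by
      apply mul_le_mul_of_nonneg_left _ (by positivity)
      linarith
    linarith
  · simp only [uc, hk, if_false, h, zero_mul, abs_zero]
    positivity

/-- product sequence at level `N` -/
noncomputable def p (m N t : ℕ) : ℝ := if m ≤ t then D vc N (t - m) * D uc N t else 0

theorem p_succ (m N : ℕ) (hm : 2 * m < n N) (t : ℕ) :
    p m (N + 1) t = (uc N (t / n N) * vc N (t / n N)) * p m N (t % n N) := by
  have hn := n_pos N
  by_cases ht : m ≤ t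
  · unfold p
    rw [if_pos ht, D_succ uc]
    set k := t / n N with hk
    set r := t % n N with hr
    have hdm : n N * k + r = t := Nat.div_add_mod t (n N)
    have hrlt : r < n N := Nat.mod_lt _ hn
    by_cases hrs : n N ≤ 2 * r
    · rw [D_support uc_adm N r hrs]
      split_ifs <;> ring
    · push Not at hrs
      by_cases hmr : m ≤ r
      · rw [if_pos hmr, D_succ vc]
        have e1 : t - m = n N * k + (r - m) := by omega
        have e2 : (t - m) / n N = k := by
          rw [e1, Nat.mul_add_div hn, Nat.div_eq_of_lt (by omega), add_zero]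
        have e3 : (t - m) % n N = r - m := by
          rw [e1, Nat.mul_add_mod, Nat.mod_eq_of_lt (by omega)]
        rw [e2, e3]; ring
      · rw [if_neg hmr, mul_zero, D_succ vc]
        have hk0 : k ≠ 0 := by
          intro h0
          rw [h0, mul_zero, zero_add] at hdm
          omega
        obtain ⟨k', hk'⟩ := Nat.exists_eq_succ_of_ne_zero hk0
        have e1 : t - m = n N * k' + (n N + r - m) := by
          rw [hk', Nat.succ_eq_add_one, mul_add, mul_one] at hdm; omega
        have e3 : (t - m) % n N = n N + r - m := by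
          rw [e1, Nat.mul_add_mod, Nat.mod_eq_of_lt (by omega)]
        rw [e3, D_support vc_adm N _ (by omega)]
        ring
  · have h1 : p m (N + 1) t = 0 := by simp [p, ht]
    have htn : t < n N := by omega
    rw [h1, Nat.mod_eq_of_lt htn]
    simp [p, ht]

/-- partial sums -/
noncomputable def S (m N T : ℕ) : ℝ := ∑ t ∈ range T, p m N t

theorem p_support (m N t : ℕ) (h : n N ≤ 2 * t) : p m N t = 0 := by
  unfold p
  rw [D_support uc_adm N t h]; simp

theorem S_full (m N T : ℕ) (h : n N ≤ T) : S m N T = S m N (n N) := by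
  unfold S
  obtain ⟨d, rfl⟩ := Nat.exists_eq_add_of_le h
  rw [sum_range_add]
  rw [sum_eq_zero (s := range d), add_zero]
  intro t _
  exact p_support m N _ (by omega)

theorem S_succ (m N : ℕ) (hm : 2 * m < n N) (k r : ℕ) (hr : r ≤ n N) :
    S m (N + 1) (k * n N + r)
      = (∑ i ∈ range k, uc N i * vc N i) * S m N (n N) + (uc N k * vc N k) * S m N r :=
  sum_blocks (n_pos N) (g' := p m (N + 1)) (g := p m N) (c := fun k => uc N k * vc N k)
    (p_succ m N hm) k r hr

theorem S_full_zero (m N : ℕ) (hm : 2 * m < n N) : S m (N + 1) (n (N + 1)) = 0 := by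
  have h1 : n (N + 1) = (2 * M N + 1) * n N + 0 := by rw [n_succ]; simp
  rw [h1, S_succ m N hm _ 0 (Nat.zero_le _)]
  have h2 : ∑ i ∈ range (2 * M N + 1), uc N i * vc N i = 0 := by
    have e : 2 * M N + 1 = (M N + 1) + M N := by ring
    rw [e, sum_range_add, sum_uv, zero_add]
    apply sum_eq_zero
    intro i _
    rw [uc_adm.big N _ (by omega), zero_mul]
  rw [h2]
  simp [S]

theorem S_bound (m : ℕ) : ∃ B : ℝ, 0 ≤ B ∧ ∀ N, m + 1 ≤ N → ∀ T, |S m N T| ≤ B := by
  refine ⟨∑ t ∈ range (n (m + 1)), |p m (m + 1) t|, sum_nonneg fun _ _ => abs_nonneg _, ?_⟩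
  intro N hN
  induction N, hN using Nat.le_induction with
  | base =>
    intro T
    rcases le_total T (n (m + 1)) with h | h
    · refine (abs_sum_le_sum_abs _ _).trans ?_
      exact sum_le_sum_of_subset_of_nonneg (range_mono h) fun _ _ _ => abs_nonneg _
    · rw [S_full m (m + 1) T h]
      exact abs_sum_le_sum_abs _ _
  | succ N hN ih =>
    intro T
    have hm : 2 * m < n N := by have := lt_n N; omega
    have hz : S m N (n N) = 0 := by
      obtain ⟨N', rfl⟩ : ∃ N', N = N' + 1 := ⟨N - 1, by omega⟩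
      exact S_full_zero m N' (by have := lt_n N'; omega)
    have hT : T = T / n N * n N + T % n N := by
      rw [mul_comm]; exact (Nat.div_add_mod T (n N)).symm
    rw [hT, S_succ m N hm _ _ (Nat.mod_lt _ (n_pos N)).le, hz, mul_zero, zero_add, abs_mul]
    by_cases hk : T / n N = 0
    · rw [hk, uc_adm.zero, vc_adm.zero]
      simpa using ih (T % n N)
    · have h1 := abs_uv_le N _ hk
      have h2 : (2 : ℝ) / M N ≤ 1 := by
        rw [div_le_one (by exact_mod_cast M_pos N)]
        have : 2 ≤ M N := by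
          unfold M
          calc 2 ≤ 64 ^ 1 := by norm_num
            _ ≤ 64 ^ (N + 1) := Nat.pow_le_pow_right (by norm_num) (by omega)
        exact_mod_cast this
      calc _ ≤ 1 * |S m N (T % n N)| :=
            mul_le_mul_of_nonneg_right (h1.trans h2) (abs_nonneg _)
        _ ≤ _ := by rw [one_mul]; exact ih _

theorem S_small (m : ℕ) : ∃ B : ℝ, 0 ≤ B ∧ ∀ N₁, m + 1 ≤ N₁ → ∀ N, N₁ + 1 ≤ N → ∀ T, n N₁ ≤ T →
    |S m N T| ≤ 2 / M N₁ * B := by
  obtain ⟨B, hB, h⟩ := S_bound m
  refine ⟨B, hB, fun N₁ hN₁ N hN => ?_⟩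
  have step : ∀ N, N₁ ≤ N → ∀ T, (n N₁ ≤ T → N = N₁ ∨ |S m N T| ≤ 2 / M N₁ * B) → n N₁ ≤ T →
      (N = N₁ → n N ≤ T) → |S m (N + 1) T| ≤ 2 / M N₁ * B := by
    intro N hN T hT hT1 hT2
    have hm : 2 * m < n N := by have := lt_n N; omega
    have hz : S m N (n N) = 0 := by
      obtain ⟨N', rfl⟩ : ∃ N', N = N' + 1 := ⟨N - 1, by omega⟩
      exact S_full_zero m N' (by have := lt_n N'; omega)
    have hTe : T = T / n N * n N + T % n N := by
      rw [mul_comm]; exact (Nat.div_add_mod T (n N)).symm
    have hS : S m (N + 1) T = (uc N (T / n N) * vc N (T / n N)) * S m N (T % n N) := by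
      conv_lhs => rw [hTe]
      rw [S_succ m N hm _ _ (Nat.mod_lt _ (n_pos N)).le, hz, mul_zero, zero_add]
    by_cases hk : T / n N = 0
    · have hlt : T < n N := by
        rcases Nat.div_eq_zero_iff.1 hk with h0 | h0
        · have := n_pos N; omega
        · exact h0
      rw [hS, hk, uc_adm.zero, vc_adm.zero, Nat.mod_eq_of_lt hlt]
      rcases hT hT1 with h0 | h0
      · have := hT2 h0; omega
      · simpa using h0
    · rw [hS, abs_mul]
      have h1 := abs_uv_le N _ hk
      have h2 : (2 : ℝ) / M N ≤ 2 / M N₁ := by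
        apply div_le_div_of_nonneg_left (by norm_num) (by exact_mod_cast M_pos N₁)
        have : M N₁ ≤ M N := by
          unfold M
          exact Nat.pow_le_pow_right (by norm_num) (by omega)
        exact_mod_cast this
      have h3 : 0 ≤ (2 : ℝ) / M N₁ := by positivity
      exact mul_le_mul (h1.trans h2) (h N (by omega) _) (abs_nonneg _) h3
  induction N, hN using Nat.le_induction with
  | base =>
    intro T hT
    exact step N₁ le_rfl T (fun _ => Or.inl rfl) hT (fun _ => hT)
  | succ N hN ih =>
    intro T hT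
    exact step N (by omega) T (fun h0 => Or.inr (ih T h0)) hT (fun h0 => by omega)

/-- the coefficients `c_m` vanish -/
theorem tendsto_c (m : ℕ) :
    Tendsto (fun K => ∑ i ∈ range K, lim vc i * lim uc (m + i)) atTop (𝓝 0) := by
  obtain ⟨B, hB, h⟩ := S_small m
  have key : ∀ N₁, m + 1 ≤ N₁ → ∀ K, n N₁ ≤ K →
      |∑ i ∈ range K, lim vc i * lim uc (m + i)| ≤ 2 / M N₁ * B := by
    intro N₁ hN₁ K hK
    set N := m + K + N₁ + 1 with hN
    have e : ∑ i ∈ range K, lim vc i * lim uc (m + i) = S m N (m + K) := by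
      unfold S
      rw [sum_range_add]
      have h0 : ∑ x ∈ range m, p m N x = 0 := by
        apply sum_eq_zero
        intro x hx
        have := mem_range.1 hx
        simp [p, not_le.2 this]
      rw [h0, zero_add]
      refine sum_congr rfl fun i hi => ?_
      have hi' := mem_range.1 hi
      have hlt := lt_n N
      unfold p
      rw [if_pos (by omega), Nat.add_sub_cancel_left,
        lim_eq vc_adm N i (by omega), lim_eq uc_adm N (m + i) (by omega)]
    rw [e]
    exact h N₁ hN₁ N (by omega) _ (by omega)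
  rw [Metric.tendsto_atTop]
  intro ε hε
  obtain ⟨j, hj⟩ := exists_nat_gt (2 * B / ε)
  refine ⟨n (m + 1 + j), fun K hK => ?_⟩
  rw [Real.dist_eq, sub_zero]
  refine (key (m + 1 + j) (by omega) K hK).trans_lt ?_
  have hMj : (j : ℝ) < M (m + 1 + j) := by
    have : j < M (m + 1 + j) := by
      unfold M
      calc j < 64 ^ j := Nat.lt_pow_self (by norm_num)
        _ ≤ 64 ^ (m + 1 + j + 1) := Nat.pow_le_pow_right (by norm_num) (by omega)
    exact_mod_cast this
  have hMpos : (0 : ℝ) < M (m + 1 + j) := by exact_mod_cast M_pos _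
  rw [div_mul_eq_mul_div, div_lt_iff₀ hMpos]
  have : 2 * B < ε * j := by rw [div_lt_iff₀ hε] at hj; linarith
  nlinarith

end Pool.Agent.H270R3.BR
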