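import Mathlib

/-!
The Pythagorean pair of a quotient `φ = b / a`, by projection in `ℓ² ⊕ ℓ²`.
-/

set_option autoImplicit false

open Finset Filter Topology
open scoped ENNReal ComplexConjugate InnerProductSpace

namespace Pool.Agent.H270R3.BR

/-- `ℓ²` -/
abbrev E : Type := lp (fun _ : ℕ => ℂ) 2

/-- `ℓ² ⊕ ℓ²` -/
abbrev HH : Type := WithLp 2 (E × E)

theorem mem2 {x : ℕ → ℂ} : Memℓp x 2 ↔ Summable fun n => ‖x n‖ ^ 2 := by
  rw [memℓp_gen_iff (by norm_num)]
  simp

/-- a square summable sequence as an element of `ℓ²` -/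
def mk (x : ℕ → ℂ) (h : Summable fun n => ‖x n‖ ^ 2) : E := ⟨x, mem2.2 h⟩

@[simp] theorem mk_apply (x : ℕ → ℂ) (h : Summable fun n => ‖x n‖ ^ 2) (n : ℕ) : mk x h n = x n :=
  rfl

theorem E.summable (x : E) : Summable fun n => ‖x n‖ ^ 2 := mem2.1 (lp.memℓp x)

theorem E.norm_sq (x : E) : ‖x‖ ^ 2 = ∑' n, ‖x n‖ ^ 2 := by
  have h := lp.norm_rpow_eq_tsum (p := 2) (by norm_num) x
  simpa using h

theorem E.coord_le (x : E) (n : ℕ) : ‖x n‖ ≤ ‖x‖ := lp.norm_apply_le_norm (by norm_num) x n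

/-- the shifted sequence -/
def shiftFun (x : ℕ → ℂ) : ℕ → ℂ
  | 0 => 0
  | (n + 1) => x n

theorem summable_shift {x : ℕ → ℂ} (h : Summable fun n => ‖x n‖ ^ 2) :
    Summable fun n => ‖shiftFun x n‖ ^ 2 := by
  rw [← summable_nat_add_iff 1]
  exact h

theorem tsum_shift {x : ℕ → ℂ} (h : Summable fun n => ‖x n‖ ^ 2) :
    ∑' n, ‖shiftFun x n‖ ^ 2 = ∑' n, ‖x n‖ ^ 2 := by
  rw [(summable_shift h).tsum_eq_zero_add]
  simp [shiftFun]

/-- the shift as a linear isometry -/
noncomputable def S₁ : E →ₗᵢ[ℂ] E where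
  toFun x := mk (shiftFun x) (summable_shift x.summable)
  map_add' x y := by
    ext n
    cases n <;> simp [shiftFun]
  map_smul' c x := by
    ext n
    cases n <;> simp [shiftFun]
  norm_map' x := by
    have h : ‖mk (shiftFun x) (summable_shift x.summable)‖ ^ 2 = ‖x‖ ^ 2 := by
      rw [E.norm_sq, E.norm_sq]
      exact tsum_shift x.summable
    exact (pow_left_inj₀ (norm_nonneg _) (norm_nonneg _) two_ne_zero).1 h

@[simp] theorem S₁_zero (x : E) : S₁ x 0 = 0 := rfl
@[simp] theorem S₁_succ (x : E) (n : ℕ) : S₁ x (n + 1) = x n := rfl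

theorem S₁_iter (x : E) (j n : ℕ) : (S₁^[j] x) n = if n < j then 0 else x (n - j) := by
  induction j generalizing n with
  | zero => simp
  | succ j ih =>
    rw [Function.iterate_succ_apply']
    cases n with
    | zero => simp
    | succ n =>
      rw [S₁_succ, ih]
      simp

theorem S₁_iter_add (x : E) (j n : ℕ) : (S₁^[j] x) (n + j) = x n := by
  rw [S₁_iter]; simp

/-- the shift on `ℓ² ⊕ ℓ²` -/
noncomputable def SH : HH →ₗᵢ[ℂ] HH where
  toFun q := WithLp.toLp 2 (S₁ q.fst, S₁ q.snd)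
  map_add' x y := by
    simp only [WithLp.add_fst, WithLp.add_snd, map_add]
    rfl
  map_smul' c x := by
    simp only [WithLp.smul_fst, WithLp.smul_snd, map_smul, RingHom.id_apply]
    rfl
  norm_map' x := by
    have h : ‖WithLp.toLp 2 (S₁ x.fst, S₁ x.snd)‖ ^ 2 = ‖x‖ ^ 2 := by
      rw [WithLp.prod_norm_sq_eq_of_L2, WithLp.prod_norm_sq_eq_of_L2]
      simp
    exact (pow_left_inj₀ (norm_nonneg _) (norm_nonneg _) two_ne_zero).1 h

@[simp] theorem SH_fst (q : HH) : (SH q).fst = S₁ q.fst := rfl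
@[simp] theorem SH_snd (q : HH) : (SH q).snd = S₁ q.snd := rfl

theorem SH_iter_fst (q : HH) (j : ℕ) : (SH^[j] q).fst = S₁^[j] q.fst := by
  induction j with
  | zero => rfl
  | succ j ih => rw [Function.iterate_succ_apply', Function.iterate_succ_apply', SH_fst, ih]

theorem SH_iter_snd (q : HH) (j : ℕ) : (SH^[j] q).snd = S₁^[j] q.snd := by
  induction j with
  | zero => rfl
  | succ j ih => rw [Function.iterate_succ_apply', Function.iterate_succ_apply', SH_snd, ih]

/-- evaluation of a coordinate of the first component -/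
noncomputable def ev1 (n : ℕ) : HH →L[ℂ] ℂ :=
  (lp.evalCLM ℂ (fun _ : ℕ => ℂ) 2 n).comp (WithLp.fstL 2 ℂ E E)

/-- evaluation of a coordinate of the second component -/
noncomputable def ev2 (n : ℕ) : HH →L[ℂ] ℂ :=
  (lp.evalCLM ℂ (fun _ : ℕ => ℂ) 2 n).comp (WithLp.sndL 2 ℂ E E)

@[simp] theorem ev1_apply (n : ℕ) (q : HH) : ev1 n q = q.fst n := rfl
@[simp] theorem ev2_apply (n : ℕ) (q : HH) : ev2 n q = q.snd n := rfl

variable (φ : ℕ → ℂ)

/-- the defect functional -/
noncomputable def defect (n : ℕ) : HH →L[ℂ] ℂ :=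
  (∑ k ∈ range (n + 1), φ (n - k) • ev1 k) - ev2 n

theorem defect_apply (n : ℕ) (q : HH) :
    defect φ n q = (∑ k ∈ range (n + 1), q.fst k * φ (n - k)) - q.snd n := by
  simp [defect, mul_comm]

/-- the graph of multiplication by `φ` -/
noncomputable def G : Submodule ℂ HH := ⨅ n, LinearMap.ker (defect φ n).toLinearMap

theorem mem_G (q : HH) :
    q ∈ G φ ↔ ∀ n, ∑ k ∈ range (n + 1), q.fst k * φ (n - k) = q.snd n := by
  simp only [G, Submodule.mem_iInf, LinearMap.mem_ker]
  refine forall_congr' fun n => ?_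
  show defect φ n q = 0 ↔ _
  rw [defect_apply, sub_eq_zero]

theorem G_closed : IsClosed (G φ : Set HH) := by
  have : (G φ : Set HH) = ⋂ n, {q | defect φ n q = 0} := by
    ext q
    simp only [G, SetLike.mem_coe, Submodule.mem_iInf, LinearMap.mem_ker, Set.mem_iInter]
    rfl
  rw [this]
  exact isClosed_iInter fun n => isClosed_eq (defect φ n).continuous continuous_const

/-- the part of the graph vanishing at the origin -/
noncomputable def K₀ : Submodule ℂ HH := G φ ⊓ LinearMap.ker (ev1 0).toLinearMap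

theorem mem_K₀ (q : HH) : q ∈ K₀ φ ↔ q ∈ G φ ∧ q.fst 0 = 0 := by
  simp only [K₀, Submodule.mem_inf, LinearMap.mem_ker]
  rfl

theorem K₀_closed : IsClosed (K₀ φ : Set HH) := by
  have : (K₀ φ : Set HH) = (G φ : Set HH) ∩ {q | ev1 0 q = 0} := by
    ext q
    simp only [K₀, SetLike.mem_coe, Submodule.mem_inf, LinearMap.mem_ker]
    rfl
  rw [this]
  exact (G_closed φ).inter (isClosed_eq (ev1 0).continuous continuous_const)

instance : CompleteSpace (G φ) := (G_closed φ).completeSpace_coe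
instance : CompleteSpace (K₀ φ) := (K₀_closed φ).completeSpace_coe

variable {φ}

theorem SH_mem {q : HH} (hq : q ∈ G φ) : SH q ∈ G φ := by
  rw [mem_G] at *
  intro n
  cases n with
  | zero => simp
  | succ n =>
    rw [sum_range_succ']
    simp only [SH_fst, S₁_succ, S₁_zero, zero_mul, add_zero, SH_snd, Nat.succ_sub_succ_eq_sub]
    exact hq n

theorem SH_iter_mem {q : HH} (hq : q ∈ G φ) (j : ℕ) : SH^[j] q ∈ G φ := by
  induction j with
  | zero => exact hq
  | succ j ih => rw [Function.iterate_succ_apply']; exact SH_mem ih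

theorem summable_unshift {x : ℕ → ℂ} (h : Summable fun n => ‖x n‖ ^ 2) :
    Summable fun n => ‖x (n + 1)‖ ^ 2 := (summable_nat_add_iff 1).2 h

/-- the sequence shifted back -/
noncomputable def unshift (x : E) : E := mk (fun n => x (n + 1)) (summable_unshift x.summable)

@[simp] theorem unshift_apply (x : E) (n : ℕ) : unshift x n = x (n + 1) := rfl

theorem S₁_unshift (x : E) (h : x 0 = 0) : S₁ (unshift x) = x := by
  ext n
  cases n with
  | zero => simp [h]
  | succ n => simp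

theorem exists_unshift {q : HH} (hq : q ∈ G φ) (h0 : q.fst 0 = 0) :
    ∃ q' ∈ G φ, SH q' = q := by
  rw [mem_G] at hq
  have h0' : q.snd 0 = 0 := by rw [← hq 0]; simp [h0]
  refine ⟨WithLp.toLp 2 (unshift q.fst, unshift q.snd), ?_, ?_⟩
  · rw [mem_G]
    intro n
    have h := hq (n + 1)
    rw [sum_range_succ'] at h
    simp only [h0, zero_mul, add_zero, Nat.succ_sub_succ_eq_sub] at h
    exact h
  · show WithLp.toLp 2 (S₁ (unshift q.fst), S₁ (unshift q.snd)) = q
    rw [S₁_unshift _ h0, S₁_unshift _ h0']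
    rfl

/-- `p` generates the graph -/
structure IsGen (φ : ℕ → ℂ) (p : HH) : Prop where
  mem : p ∈ G φ
  norm : ‖p‖ = 1
  ne : p.fst 0 ≠ 0
  orth : ∀ q ∈ K₀ φ, ⟪p, q⟫_ℂ = 0

theorem exists_gen {q₀ : HH} (h : q₀ ∈ G φ) (h1 : q₀.fst 0 = 1) :
    ∃ p : HH, IsGen φ p ∧ 0 < (p.fst 0).re ∧ (p.fst 0).im = 0 := by
  set r := (K₀ φ).starProjection q₀ with hr
  have hrK : r ∈ K₀ φ := Submodule.starProjection_apply_mem _ _
  set p₁ := q₀ - r with hp₁
  have hp₁G : p₁ ∈ G φ := (G φ).sub_mem h ((mem_K₀ φ r).1 hrK).1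
  have hp₁0 : p₁.fst 0 = 1 := by
    rw [hp₁, WithLp.sub_fst, lp.coeFn_sub, Pi.sub_apply, h1, ((mem_K₀ φ r).1 hrK).2, sub_zero]
  have horth : ∀ q ∈ K₀ φ, ⟪p₁, q⟫_ℂ = 0 := by
    intro q hq
    have := Submodule.sub_starProjection_mem_orthogonal (K := K₀ φ) q₀
    rw [Submodule.mem_orthogonal'] at this
    exact this q hq
  have hne : p₁ ≠ 0 := by
    intro h0
    rw [h0] at hp₁0
    simp at hp₁0
  have hnorm : 0 < ‖p₁‖ := norm_pos_iff.2 hne
  refine ⟨((‖p₁‖⁻¹ : ℝ) : ℂ) • p₁, ⟨(G φ).smul_mem _ hp₁G, ?_, ?_, ?_⟩, ?_, ?_⟩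
  · rw [norm_smul, Complex.norm_real, norm_inv, norm_norm, inv_mul_cancel₀ hnorm.ne']
  · rw [WithLp.smul_fst, lp.coeFn_smul, Pi.smul_apply, hp₁0]
    simp [hne]
  · intro q hq
    rw [inner_smul_left, horth q hq, mul_zero]
  · rw [WithLp.smul_fst, lp.coeFn_smul, Pi.smul_apply, hp₁0, smul_eq_mul, mul_one, Complex.ofReal_re]
    exact inv_pos.2 hnorm
  · rw [WithLp.smul_fst, lp.coeFn_smul, Pi.smul_apply, hp₁0, smul_eq_mul, mul_one, Complex.ofReal_im]

theorem inner_SH (q q' : HH) : ⟪SH q, SH q'⟫_ℂ = ⟪q, q'⟫_ℂ := SH.inner_map_map q q'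

theorem inner_SH_iter (q q' : HH) (j : ℕ) : ⟪SH^[j] q, SH^[j] q'⟫_ℂ = ⟪q, q'⟫_ℂ := by
  induction j with
  | zero => rfl
  | succ j ih => rw [Function.iterate_succ_apply', Function.iterate_succ_apply', inner_SH, ih]

theorem IsGen.orthonormal {p : HH} (hp : IsGen φ p) : Orthonormal ℂ (fun j : ℕ => SH^[j] p) := by
  have hpos : ∀ j, ⟪p, SH^[j + 1] p⟫_ℂ = 0 := by
    intro j
    apply hp.orth
    rw [mem_K₀]
    refine ⟨SH_iter_mem hp.mem _, ?_⟩
    rw [SH_iter_fst, S₁_iter]; simp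
  have hlt : ∀ i j, i < j → ⟪SH^[i] p, SH^[j] p⟫_ℂ = 0 := by
    intro i j hij
    obtain ⟨d, rfl⟩ := Nat.exists_eq_add_of_lt hij
    have : i + d + 1 = i + (d + 1) := by ring
    rw [this, Function.iterate_add_apply, inner_SH_iter, hpos]
  constructor
  · intro j
    have : ∀ j, ‖SH^[j] p‖ = 1 := by
      intro j
      induction j with
      | zero => exact hp.norm
      | succ j ih => rw [Function.iterate_succ_apply', SH.norm_map, ih]
    exact this j
  · intro i j hij
    rcases lt_or_gt_of_ne hij with h | h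
    · exact hlt i j h
    · have := hlt j i h
      rw [← inner_conj_symm, this, map_zero]

/-- an element of the graph orthogonal to all the shifts of the generator vanishes -/
theorem IsGen.eq_zero {p : HH} (hp : IsGen φ p) {h : HH} (hh : h ∈ G φ)
    (horth : ∀ j, ⟪SH^[j] p, h⟫_ℂ = 0) : h = 0 := by
  have key : ∀ j, ∃ q ∈ G φ, SH^[j] q = h := by
    intro j
    induction j with
    | zero => exact ⟨h, hh, rfl⟩
    | succ j ih =>
      obtain ⟨q, hq, hqh⟩ := ih
      have h1 : ⟪p, q⟫_ℂ = 0 := by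
        rw [← inner_SH_iter p q j, hqh]; exact horth j
      have h2 : q.fst 0 = 0 := by
        set c := q.fst 0 / p.fst 0 with hc
        have hmem : q - c • p ∈ K₀ φ := by
          rw [mem_K₀]
          refine ⟨(G φ).sub_mem hq ((G φ).smul_mem _ hp.mem), ?_⟩
          simp only [WithLp.sub_fst, WithLp.smul_fst, lp.coeFn_sub, lp.coeFn_smul, Pi.sub_apply,
            Pi.smul_apply, smul_eq_mul]
          rw [hc, div_mul_cancel₀ _ hp.ne, sub_self]
        have h3 := hp.orth _ hmem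
        rw [inner_sub_right, inner_smul_right, h1, zero_sub, neg_eq_zero, mul_eq_zero] at h3
        rcases h3 with h3 | h3
        · rw [hc, div_eq_zero_iff] at h3
          exact h3.resolve_right hp.ne
        · rw [inner_self_eq_norm_sq_to_K, hp.norm] at h3
          norm_num at h3
      obtain ⟨q', hq', hqq⟩ := exists_unshift hq h2
      exact ⟨q', hq', by rw [Function.iterate_succ_apply, hqq, hqh]⟩
  have e1 : h.fst = 0 := by
    ext n
    obtain ⟨q, -, hq⟩ := key (n + 1)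
    rw [← hq, SH_iter_fst, S₁_iter]
    simp
  have e2 : h.snd = 0 := by
    ext n
    obtain ⟨q, -, hq⟩ := key (n + 1)
    rw [← hq, SH_iter_snd, S₁_iter]
    simp
  have : h = WithLp.toLp 2 (h.fst, h.snd) := rfl
  rw [this, e1, e2]
  rfl

/-- a vector orthogonal to all the shifts of the generator is orthogonal to the graph -/
theorem IsGen.orth_G {p : HH} (hp : IsGen φ p) {g : HH}
    (horth : ∀ j, ⟪SH^[j] p, g⟫_ℂ = 0) : ∀ q ∈ G φ, ⟪q, g⟫_ℂ = 0 := by
  set r := (G φ).starProjection g with hr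
  have hrG : r ∈ G φ := Submodule.starProjection_apply_mem _ _
  have ho : ∀ q ∈ G φ, ⟪q, g - r⟫_ℂ = 0 := by
    intro q hq
    have := Submodule.sub_starProjection_mem_orthogonal (K := G φ) g
    rw [Submodule.mem_orthogonal] at this
    exact this q hq
  have hr0 : r = 0 := by
    apply hp.eq_zero hrG
    intro j
    have h1 := ho _ (SH_iter_mem hp.mem j)
    rw [inner_sub_right, horth j, zero_sub, neg_eq_zero] at h1
    exact h1
  intro q hq
  have h1 := ho q hq
  rwa [hr0, sub_zero] at h1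

end Pool.Agent.H270R3.BR
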