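import Mathlib
import Pool.Agent.H270R3.BRHilb
import Pool.Agent.H270R3.BRCoef

/-!
Coercivity of the factors `v_j (z^{n_j})` and the reciprocal of the infinite product.
-/

set_option autoImplicit false

open Finset Filter Topology
open scoped ENNReal ComplexConjugate InnerProductSpace

namespace Pool.Agent.H270R3.BR

/-- powers of the shift -/
noncomputable def Sp : ℕ → (E →ₗᵢ[ℂ] E)
  | 0 => LinearIsometry.id
  | (j + 1) => S₁.comp (Sp j)

theorem Sp_eq (j : ℕ) (x : E) : Sp j x = S₁^[j] x := by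
  induction j with
  | zero => rfl
  | succ j ih => rw [Function.iterate_succ_apply', ← ih]; rfl

theorem Sp_add (i j : ℕ) (x : E) : Sp i (Sp j x) = Sp (i + j) x := by
  rw [Sp_eq, Sp_eq, Sp_eq, Function.iterate_add_apply]

theorem Sp_apply (x : E) (j i : ℕ) : (Sp j x) i = if i < j then 0 else x (i - j) := by
  rw [Sp_eq, S₁_iter]

section coercive

variable (h : E) (q : ℕ)

/-- autocorrelation -/
noncomputable def R (d : ℕ) : ℝ := (⟪h, Sp (d * q) h⟫_ℂ).re

/-- sum of shifts -/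
noncomputable def T (m : ℕ) : E := ∑ k ∈ range (m + 1), Sp (k * q) h

theorem T_succ (m : ℕ) : T h q (m + 1) = h + Sp q (T h q m) := by
  unfold T
  rw [sum_range_succ', map_sum, add_comm]
  congr 1
  · rw [zero_mul]; rfl
  · refine sum_congr rfl fun k _ => ?_
    rw [Sp_add, add_mul, one_mul, add_comm]

theorem R_zero : R h q 0 = ‖h‖ ^ 2 := by
  unfold R
  rw [zero_mul]
  show (⟪h, h⟫_ℂ).re = _
  rw [inner_self_eq_norm_sq_to_K]
  norm_cast

theorem T_norm_succ (m : ℕ) :
    ‖T h q (m + 1)‖ ^ 2 = ‖T h q m‖ ^ 2 + R h q 0 + 2 * ∑ d ∈ range (m + 1), R h q (d + 1) := by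
  rw [T_succ, @norm_add_sq ℂ, (Sp q).norm_map, R_zero]
  have : RCLike.re ⟪h, Sp q (T h q m)⟫_ℂ = ∑ d ∈ range (m + 1), R h q (d + 1) := by
    unfold T
    rw [map_sum, inner_sum, map_sum]
    refine sum_congr rfl fun k _ => ?_
    rw [Sp_add]
    unfold R
    rw [add_mul, one_mul, add_comm q]
    rfl
  rw [this]; ring

theorem T_norm (m : ℕ) :
    ‖T h q m‖ ^ 2 = (m + 1) * R h q 0 + 2 * ∑ d ∈ range m, ((m : ℝ) - d) * R h q (d + 1) := by
  induction m with
  | zero =>
    rw [R_zero]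
    have : T h q 0 = h := by
      unfold T
      rw [zero_add, sum_range_one, zero_mul]; rfl
    rw [this]; simp
  | succ m ih =>
    rw [T_norm_succ, ih, sum_range_succ (fun d => (((m + 1 : ℕ) : ℝ) - d) * R h q (d + 1))]
    rw [sum_range_succ (fun d => R h q (d + 1))]
    have : ∑ d ∈ range m, (((m + 1 : ℕ) : ℝ) - d) * R h q (d + 1)
        = ∑ d ∈ range m, ((m : ℝ) - d) * R h q (d + 1) + ∑ d ∈ range m, R h q (d + 1) := by
      rw [← sum_add_distrib]
      refine sum_congr rfl fun d _ => ?_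
      push_cast; ring
    rw [this]
    push_cast
    ring

/-- the operator `v(S^q)` -/
noncomputable def Vop (m : ℕ) (b : ℝ) : E :=
  h + ∑ k ∈ range m, ((2 * b * (1 - (k + 1) / (m + 1)) : ℝ) : ℂ) • Sp ((k + 1) * q) h

theorem coercive (m : ℕ) {b : ℝ} (hb : 0 ≤ b) :
    (1 - b) * ‖h‖ ^ 2 ≤ (⟪h, Vop h q m b⟫_ℂ).re := by
  unfold Vop
  rw [inner_add_right, inner_sum, Complex.add_re, Complex.re_sum]
  have h1 : (⟪h, h⟫_ℂ).re = ‖h‖ ^ 2 := by
    rw [inner_self_eq_norm_sq_to_K]; norm_cast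
  have h2 : ∀ k ∈ range m,
      (⟪h, ((2 * b * (1 - (k + 1) / (m + 1)) : ℝ) : ℂ) • Sp ((k + 1) * q) h⟫_ℂ).re
        = 2 * b / (m + 1) * (((m : ℝ) - k) * R h q (k + 1)) := by
    intro k _
    rw [inner_smul_right, Complex.re_ofReal_mul]
    unfold R
    field_simp
    ring
  rw [sum_congr rfl h2, h1, ← mul_sum]
  have h3 := T_norm h q m
  rw [R_zero] at h3
  have h4 : 0 ≤ b / (m + 1) * ‖T h q m‖ ^ 2 := by positivity
  rw [h3] at h4
  have h5 : b / ((m : ℝ) + 1) * ((m + 1) * ‖h‖ ^ 2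
      + 2 * ∑ d ∈ range m, ((m : ℝ) - d) * R h q (d + 1))
      = b * ‖h‖ ^ 2 + 2 * b / (m + 1) * ∑ d ∈ range m, ((m : ℝ) - d) * R h q (d + 1) := by
    field_simp
  rw [h5] at h4
  linarith

end coercive

/-- truncation -/
noncomputable def P (K : ℕ) (x : ℕ → ℂ) : E :=
  mk (fun i => if i < K then x i else 0) (by
    refine summable_of_ne_finset_zero (s := range K) ?_
    intro i hi
    rw [mem_range] at hi
    simp [hi])

theorem P_apply (K : ℕ) (x : ℕ → ℂ) (i : ℕ) : P K x i = if i < K then x i else 0 := rfl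

theorem P_norm_sq (K : ℕ) (x : ℕ → ℂ) : ‖P K x‖ ^ 2 = ∑ i ∈ range K, ‖x i‖ ^ 2 := by
  rw [E.norm_sq, tsum_eq_sum (s := range K)]
  · refine sum_congr rfl fun i hi => ?_
    rw [P_apply, if_pos (mem_range.1 hi)]
  · intro i hi
    rw [mem_range] at hi
    simp [P_apply, hi]

theorem inner_P (K : ℕ) (x : ℕ → ℂ) (y : E) : ⟪P K x, y⟫_ℂ = ⟪P K x, P K y⟫_ℂ := by
  rw [lp.inner_eq_tsum, lp.inner_eq_tsum]
  refine tsum_congr fun i => ?_
  rw [P_apply, P_apply]
  split_ifs <;> simp

/-- division by `v_j(z^q)` is bounded -/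
theorem div_bound (x y : ℕ → ℂ) (q m K : ℕ) {b : ℝ} (hb : 0 ≤ b)
    (hy : ∀ i, y i = x i + ∑ k ∈ range m,
      if (k + 1) * q ≤ i then ((2 * b * (1 - (k + 1) / (m + 1)) : ℝ) : ℂ) * x (i - (k + 1) * q)
        else 0) :
    (1 - b) * ‖P K x‖ ≤ ‖P K y‖ := by
  have h1 := coercive (P K x) q m hb
  have h2 : P K (Vop (P K x) q m b) = P K y := by
    ext i
    rw [P_apply, P_apply]
    split_ifs with hi
    · unfold Vop
      rw [hy, lp.coeFn_add, Pi.add_apply, P_apply, if_pos hi]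
      congr 1
      rw [lp.coeFn_sum, Finset.sum_apply]
      refine sum_congr rfl fun k _ => ?_
      rw [lp.coeFn_smul, Pi.smul_apply, Sp_apply, smul_eq_mul]
      by_cases hk : (k + 1) * q ≤ i
      · rw [if_neg (not_lt.2 hk), if_pos hk, P_apply, if_pos (by omega)]
      · rw [if_pos (not_le.1 hk), if_neg hk, mul_zero]
    · rfl
  rw [inner_P, h2] at h1
  have h3 : (⟪P K x, P K y⟫_ℂ).re ≤ ‖P K x‖ * ‖P K y‖ :=
    (Complex.re_le_norm _).trans (norm_inner_le_norm _ _)
  rcases (norm_nonneg (P K x)).eq_or_lt with h0 | h0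
  · rw [← h0, mul_zero]; exact norm_nonneg _
  · have h4 : (1 - b) * ‖P K x‖ * ‖P K x‖ ≤ ‖P K y‖ * ‖P K x‖ := by nlinarith
    exact le_of_mul_le_mul_right h4 h0

open PowerSeries in
/-- the factor `v_j(z^{n_j})` as a power series -/
noncomputable def VV (j : ℕ) : PowerSeries ℂ :=
  ∑ k ∈ range (M j + 1), C (R := ℂ) (vc j k : ℂ) * X ^ (k * n j)

theorem coeff_VV_mul (j i : ℕ) (Y : PowerSeries ℂ) :
    PowerSeries.coeff i (VV j * Y) = ∑ k ∈ range (M j + 1),
      if k * n j ≤ i then (vc j k : ℂ) * PowerSeries.coeff (i - k * n j) Y else 0 := by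
  unfold VV
  rw [sum_mul, map_sum]
  refine sum_congr rfl fun k _ => ?_
  rw [mul_assoc, PowerSeries.coeff_C_mul, PowerSeries.coeff_X_pow_mul']
  split_ifs <;> simp

/-- finite products -/
noncomputable def Ph (N : ℕ) : PowerSeries ℂ := ∏ j ∈ range N, VV j

theorem coeff_Ph (N t : ℕ) : PowerSeries.coeff t (Ph N) = (D vc N t : ℂ) := by
  induction N generalizing t with
  | zero =>
    simp only [Ph, range_zero, prod_empty, D, PowerSeries.coeff_one]
    split_ifs <;> simp
  | succ N ih =>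
    have e : Ph (N + 1) = VV N * Ph N := by
      unfold Ph; rw [prod_range_succ, mul_comm]
    rw [e, coeff_VV_mul, D_succ]
    have hdm : n N * (t / n N) + t % n N = t := Nat.div_add_mod t (n N)
    have hmod : t % n N < n N := Nat.mod_lt _ (n_pos N)
    have hz : ∀ k, k ≠ t / n N → (if k * n N ≤ t then
        (vc N k : ℂ) * PowerSeries.coeff (t - k * n N) (Ph N) else 0) = 0 := by
      intro k hk
      split_ifs with h1
      · rw [ih, D_support vc_adm, Complex.ofReal_zero, mul_zero]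
        have hk1 : k < t / n N := by
          rcases lt_or_gt_of_ne hk with h2 | h2
          · exact h2
          · exfalso
            have : (t / n N + 1) * n N ≤ k * n N := Nat.mul_le_mul_right _ h2
            rw [add_mul, one_mul, mul_comm] at this
            omega
        have : (k + 1) * n N ≤ t / n N * n N := Nat.mul_le_mul_right _ hk1
        rw [add_mul, one_mul, mul_comm (t / n N)] at this
        omega
      · rfl
    by_cases hM : t / n N ≤ M N
    · rw [sum_eq_single (t / n N) (fun k _ hk => hz k hk)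
        (fun h => absurd (mem_range.2 (by omega)) h)]
      have h1 : t / n N * n N ≤ t := by rw [mul_comm]; omega
      have h2 : t - t / n N * n N = t % n N := by rw [mul_comm]; omega
      rw [if_pos h1, ih, h2]
      push_cast; ring
    · rw [vc_adm.big N _ (not_le.1 hM), zero_mul, Complex.ofReal_zero]
      apply sum_eq_zero
      intro k hk
      apply hz
      have := mem_range.1 hk
      omega

/-- norm of the truncation of a power series -/
noncomputable def nrm (K : ℕ) (Y : PowerSeries ℂ) : ℝ := ‖P K fun i => PowerSeries.coeff i Y‖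

theorem nrm_VV (j K : ℕ) (Y : PowerSeries ℂ) :
    (1 - 1 / 4 ^ (j + 1)) * nrm K Y ≤ nrm K (VV j * Y) := by
  unfold nrm
  apply div_bound _ _ (n j) (M j) K (by positivity)
  intro i
  rw [coeff_VV_mul, sum_range_succ', add_comm]
  congr 1
  · simp [vc]
  · refine sum_congr rfl fun k hk => ?_
    have hk' : k + 1 ≤ M j := by have := mem_range.1 hk; omega
    simp only [vc, Nat.succ_ne_zero, if_false, hk', if_true]
    push_cast
    rfl

/-- tails -/
noncomputable def W (N L : ℕ) : PowerSeries ℂ := ∏ j ∈ Ico N L, VV j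

theorem nrm_W (N K : ℕ) (Y : PowerSeries ℂ) (d : ℕ) :
    (1 - (1 / 4 ^ N - 1 / 4 ^ (N + d)) / 3) * nrm K Y ≤ nrm K (W N (N + d) * Y) := by
  induction d with
  | zero => simp [W]
  | succ d ih =>
    have e : W N (N + (d + 1)) * Y = VV (N + d) * (W N (N + d) * Y) := by
      unfold W
      rw [← add_assoc, prod_Ico_succ_top (by omega)]
      ring
    rw [e]
    refine le_trans ?_ (nrm_VV (N + d) K _)
    have h0 : 0 ≤ nrm K Y := norm_nonneg _
    have h1 : (0 : ℝ) ≤ 1 - 1 / 4 ^ (N + d + 1) := by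
      rw [sub_nonneg, div_le_one (by positivity)]
      exact one_le_pow₀ (by norm_num)
    refine le_trans ?_ (mul_le_mul_of_nonneg_left ih h1)
    rw [← mul_assoc]
    apply mul_le_mul_of_nonneg_right _ h0
    have h2 : (1 : ℝ) / 4 ^ (N + d + 1) = 1 / 4 ^ (N + d) / 4 := by
      rw [pow_succ]; field_simp
    have h3 : (1 : ℝ) / 4 ^ (N + (d + 1)) = 1 / 4 ^ (N + d) / 4 := h2
    rw [h2, h3]
    have h4 : (1 : ℝ) / 4 ^ (N + d) ≤ 1 / 4 ^ N := by
      apply div_le_div_of_nonneg_left (by norm_num) (by positivity)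
      exact pow_le_pow_right₀ (by norm_num) (by omega)
    have h5 : (0 : ℝ) < 1 / 4 ^ (N + d) := by positivity
    nlinarith

/-- the infinite product as a power series -/
noncomputable def Phi : PowerSeries ℂ := PowerSeries.mk fun t => (lim vc t : ℂ)

theorem Phi_const : PowerSeries.constantCoeff Phi ≠ 0 := by
  rw [← PowerSeries.coeff_zero_eq_constantCoeff_apply]
  simp [Phi, lim_zero vc_adm]

/-- the quotient `Φ_N / φ` -/
noncomputable def xs (N : ℕ) : PowerSeries ℂ := Ph N * Phi⁻¹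

theorem Phi_mul_xs (N : ℕ) : Phi * xs N = Ph N := by
  unfold xs
  rw [mul_left_comm, PowerSeries.mul_inv_cancel _ Phi_const, mul_one]

theorem dvd_sub_W (N d : ℕ) : PowerSeries.X ^ (n (N + d)) ∣ 1 - W N (N + d) * xs N := by
  have h1 : PowerSeries.X ^ (n (N + d)) ∣ Phi - Ph (N + d) := by
    rw [PowerSeries.X_pow_dvd_iff]
    intro m hm
    rw [map_sub, coeff_Ph]
    simp only [Phi, PowerSeries.coeff_mk]
    rw [lim_eq vc_adm (N + d) m hm, sub_self]
  have h2 : Ph (N + d) = Ph N * W N (N + d) := by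
    unfold Ph W
    rw [range_eq_Ico, range_eq_Ico, prod_Ico_consecutive _ (Nat.zero_le _) (by omega)]
  have h3 : (Phi - Ph (N + d)) * xs N = Ph N * (1 - W N (N + d) * xs N) := by
    rw [sub_mul, Phi_mul_xs, h2]; ring
  have h4 : PowerSeries.constantCoeff (Ph N) ≠ 0 := by
    rw [← PowerSeries.coeff_zero_eq_constantCoeff_apply, coeff_Ph, D_zero vc_adm]
    simp
  have h5 : 1 - W N (N + d) * xs N = (Ph N)⁻¹ * ((Phi - Ph (N + d)) * xs N) := by
    rw [h3, ← mul_assoc, PowerSeries.inv_mul_cancel _ h4, one_mul]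
  rw [h5]
  exact Dvd.dvd.mul_left (Dvd.dvd.mul_right h1 _) _

theorem nrm_xs (N K : ℕ) : (1 - 1 / 4 ^ N / 3) * nrm K (xs N) ≤ 1 := by
  have h1 := nrm_W N K (xs N) K
  have h2 : nrm K (W N (N + K) * xs N) ≤ 1 := by
    unfold nrm
    have hsq : ‖P K fun i => PowerSeries.coeff i (W N (N + K) * xs N)‖ ^ 2 ≤ 1 ^ 2 := by
      rw [P_norm_sq]
      have hd := dvd_sub_W N K
      rw [PowerSeries.X_pow_dvd_iff] at hd
      have : ∀ i ∈ range K, ‖PowerSeries.coeff i (W N (N + K) * xs N)‖ ^ 2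
          = if i = 0 then 1 else 0 := by
        intro i hi
        have hi' := mem_range.1 hi
        have h3 := hd i (by have := lt_n (N + K); omega)
        rw [map_sub, sub_eq_zero] at h3
        rw [← h3, PowerSeries.coeff_one]
        split_ifs <;> simp
      rw [sum_congr rfl this, sum_ite_eq']
      split_ifs <;> norm_num
    exact (pow_le_pow_iff_left₀ (norm_nonneg _) zero_le_one two_ne_zero).1 hsq
  refine le_trans ?_ (h1.trans h2)
  apply mul_le_mul_of_nonneg_right _ (norm_nonneg _)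
  have : (0 : ℝ) ≤ 1 / 4 ^ (N + K) := by positivity
  linarith

theorem xs_zero (N : ℕ) : PowerSeries.coeff 0 (xs N) = 1 := by
  have h := congrArg (PowerSeries.coeff 0) (Phi_mul_xs N)
  rw [coeff_Ph, D_zero vc_adm, PowerSeries.coeff_mul] at h
  simpa [Phi, lim_zero vc_adm] using h

theorem xs_sum_le (N K : ℕ) :
    ∑ i ∈ range K, ‖PowerSeries.coeff i (xs N)‖ ^ 2 ≤ 1 / (1 - 1 / 4 ^ N / 3) ^ 2 := by
  have h1 := nrm_xs N K
  have h4 : (1 : ℝ) / 4 ^ N ≤ 1 := by
    rw [div_le_one (by positivity)]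
    exact one_le_pow₀ (by norm_num)
  have h0 : (0 : ℝ) < 1 - 1 / 4 ^ N / 3 := by linarith
  rw [← P_norm_sq]
  have h2 : nrm K (xs N) ≤ 1 / (1 - 1 / 4 ^ N / 3) := by
    rw [le_div_iff₀ h0, mul_comm]; exact h1
  have h3 := pow_le_pow_left₀ (norm_nonneg _) h2 2
  rw [div_pow, one_pow] at h3
  exact h3

theorem xs_summable (N : ℕ) : Summable fun i => ‖PowerSeries.coeff i (xs N)‖ ^ 2 :=
  summable_of_sum_range_le (fun _ => by positivity) (xs_sum_le N)

/-- `Φ_N / φ` as an element of `ℓ²` -/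
noncomputable def xE (N : ℕ) : E := mk (fun i => PowerSeries.coeff i (xs N)) (xs_summable N)

/-- the constant function one -/
noncomputable def one : E := P 1 fun _ => 1

theorem xE_sub_one (N : ℕ) : ‖xE N - one‖ ^ 2 ≤ 1 / (1 - 1 / 4 ^ N / 3) ^ 2 - 1 := by
  rw [E.norm_sq]
  have h1 : ∀ K, ∑ i ∈ range K, ‖(xE N - one) i‖ ^ 2 ≤ 1 / (1 - 1 / 4 ^ N / 3) ^ 2 - 1 := by
    intro K
    have h2 := xs_sum_le N (K + 1)
    have h3 : ∑ i ∈ range K, ‖(xE N - one) i‖ ^ 2 ≤ ∑ i ∈ range (K + 1), ‖(xE N - one) i‖ ^ 2 :=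
      sum_le_sum_of_subset_of_nonneg (range_mono (by omega)) fun _ _ _ => by positivity
    refine h3.trans ?_
    rw [sum_range_succ'] at h2 ⊢
    have h5 : ∀ i, (xE N - one) (i + 1) = PowerSeries.coeff (i + 1) (xs N) := by
      intro i
      rw [lp.coeFn_sub, Pi.sub_apply]
      simp [xE, one, P_apply]
    have h6 : (xE N - one) 0 = 0 := by
      rw [lp.coeFn_sub, Pi.sub_apply]
      simp [xE, one, P_apply, xs_zero]
    simp only [h5, h6]
    rw [xs_zero] at h2
    simp only [norm_one, one_pow] at h2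
    simp only [norm_zero]
    linarith
  exact Real.tsum_le_of_sum_range_le (fun _ => by positivity) h1

theorem xE_tendsto : Tendsto xE atTop (𝓝 one) := by
  rw [tendsto_iff_norm_sub_tendsto_zero]
  have h1 : Tendsto (fun N : ℕ => (1 : ℝ) / (1 - 1 / 4 ^ N / 3) ^ 2 - 1) atTop (𝓝 0) := by
    have h2 : Tendsto (fun N : ℕ => (1 : ℝ) / 4 ^ N) atTop (𝓝 0) := by
      have := tendsto_pow_atTop_nhds_zero_of_lt_one (r := (1 / 4 : ℝ)) (by norm_num) (by norm_num)
      simpa [one_div, inv_pow] using this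
    have h3 : Tendsto (fun x : ℝ => (1 : ℝ) / (1 - x / 3) ^ 2 - 1) (𝓝 0) (𝓝 0) := by
      have : ContinuousAt (fun x : ℝ => (1 : ℝ) / (1 - x / 3) ^ 2 - 1) 0 := by
        apply ContinuousAt.sub _ continuousAt_const
        apply ContinuousAt.div continuousAt_const (by fun_prop)
        norm_num
      have h4 := this.tendsto
      simpa using h4
    exact h3.comp h2
  have h5 : Tendsto (fun N => ‖xE N - one‖ ^ 2) atTop (𝓝 0) :=
    squeeze_zero (fun _ => by positivity) xE_sub_one h1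
  have h6 := h5.sqrt
  simpa using h6

end Pool.Agent.H270R3.BR
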