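import Mathlib
import Pool.Agent.H270R3.BRInv

/-!
Assembly: the Pythagorean pair and the function `f`.
-/

set_option autoImplicit false

open Finset Filter Topology
open scoped ENNReal ComplexConjugate InnerProductSpace

namespace Pool.Agent.H270R3.BR

/-- the coefficients of `φ` -/
noncomputable def phi (t : ℕ) : ℂ := (lim vc t : ℂ)

/-- the coefficients of `f` -/
noncomputable def ff (t : ℕ) : ℂ := (lim uc t : ℂ)

theorem ff_zero : ff 0 = 1 := by simp [ff, lim_zero uc_adm]

theorem ff_summable : Summable fun t => ‖ff t‖ ^ 2 := by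
  have hrec : ∀ N, ∑ t ∈ range (n (N + 1)), (D uc (N + 1) t) ^ 2
      = (1 + 1 / 4 ^ (N + 1)) * ∑ t ∈ range (n N), (D uc N t) ^ 2 := by
    intro N
    have h := sum_blocks (n_pos N) (g' := fun t => (D uc (N + 1) t) ^ 2)
      (g := fun t => (D uc N t) ^ 2) (c := fun k => (uc N k) ^ 2)
      (fun t => by rw [D_succ, mul_pow]) (2 * M N + 1) 0 (Nat.zero_le _)
    rw [add_zero, ← n_succ] at h
    rw [h]
    simp only [range_zero, sum_empty, mul_zero, add_zero]
    congr 1
    have e : 2 * M N + 1 = (M N + 1) + M N := by ring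
    rw [e, sum_range_add]
    have h2 : ∑ x ∈ range (M N), uc N (M N + 1 + x) ^ 2 = 0 := by
      apply sum_eq_zero
      intro x _
      rw [uc_adm.big N _ (by omega)]; norm_num
    rw [h2, add_zero, sum_range_succ']
    have h3 : ∀ k ∈ range (M N), uc N (k + 1) ^ 2 = 1 / 16 ^ (N + 1) / 16 ^ (N + 1) := by
      intro k hk
      have hk' : k + 1 ≤ M N := by have := mem_range.1 hk; omega
      simp only [uc, Nat.succ_ne_zero, if_false, hk', if_true]
      field_simp
    rw [sum_congr rfl h3, sum_const, card_range, nsmul_eq_mul, M_cast, uc_adm.zero]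
    have h16 : (16 : ℝ) ^ (N + 1) = 4 ^ (N + 1) * 4 ^ (N + 1) := by
      rw [← mul_pow]; norm_num
    rw [h16]
    field_simp
    ring
  have hbound : ∀ N, ∑ t ∈ range (n N), (D uc N t) ^ 2 ≤ 2 - 1 / 4 ^ N := by
    intro N
    induction N with
    | zero => simp [n, D]; norm_num
    | succ N ih =>
      rw [hrec]
      have h0 : (0 : ℝ) < 1 / 4 ^ N := by positivity
      have h1 : (1 : ℝ) / 4 ^ (N + 1) = 1 / 4 ^ N / 4 := by rw [pow_succ]; field_simp
      have h2 : (1 : ℝ) / 4 ^ N ≤ 1 := by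
        rw [div_le_one (by positivity)]
        exact one_le_pow₀ (by norm_num)
      rw [h1]
      have h3 : (1 + 1 / 4 ^ N / 4) * ∑ t ∈ range (n N), (D uc N t) ^ 2
          ≤ (1 + 1 / 4 ^ N / 4) * (2 - 1 / 4 ^ N) := by
        apply mul_le_mul_of_nonneg_left ih (by positivity)
      nlinarith
  apply summable_of_sum_range_le (c := 2) (fun _ => by positivity)
  intro K
  have h1 : ∑ i ∈ range K, ‖ff i‖ ^ 2 = ∑ i ∈ range K, (D uc K i) ^ 2 := by
    refine sum_congr rfl fun i hi => ?_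
    have hi' := mem_range.1 hi
    unfold ff
    rw [Complex.norm_real, Real.norm_eq_abs, sq_abs, lim_eq uc_adm K i (by have := lt_n K; omega)]
  rw [h1]
  have h2 : ∑ i ∈ range K, (D uc K i) ^ 2 ≤ ∑ i ∈ range (n K), (D uc K i) ^ 2 :=
    sum_le_sum_of_subset_of_nonneg (range_mono (by have := lt_n K; omega)) fun _ _ _ => by positivity
  have h3 := hbound K
  have h4 : (0 : ℝ) < 1 / 4 ^ K := by positivity
  linarith

theorem ff_c (m : ℕ) :
    Tendsto (fun K => ∑ i ∈ range K, starRingEnd ℂ (phi i) * ff (m + i)) atTop (𝓝 0) := by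
  have h := (Complex.continuous_ofReal.tendsto 0).comp (tendsto_c m)
  rw [Complex.ofReal_zero] at h
  refine h.congr fun K => ?_
  simp only [Function.comp, phi, ff, Complex.conj_ofReal]
  push_cast
  rfl

/-- truncated product as an element of `ℓ²` -/
noncomputable def PhE (N : ℕ) : E :=
  mk (fun t => PowerSeries.coeff t (Ph N)) (by
    refine summable_of_ne_finset_zero (s := range (n N)) ?_
    intro t ht
    rw [mem_range, not_lt] at ht
    rw [coeff_Ph, D_support vc_adm N t (by omega)]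
    simp)

theorem pair_mem (N : ℕ) : WithLp.toLp 2 (xE N, PhE N) ∈ G phi := by
  rw [mem_G]
  intro t
  show ∑ k ∈ range (t + 1), PowerSeries.coeff k (xs N) * phi (t - k) = PowerSeries.coeff t (Ph N)
  rw [← Phi_mul_xs, mul_comm Phi, PowerSeries.coeff_mul,
    Finset.Nat.sum_antidiagonal_eq_sum_range_succ
      (fun i j => PowerSeries.coeff i (xs N) * PowerSeries.coeff j Phi)]
  refine sum_congr rfl fun k _ => ?_
  simp [Phi, phi]

/-- the generator -/
theorem exists_p : ∃ p : HH, IsGen phi p ∧ 0 < (p.fst 0).re ∧ (p.fst 0).im = 0 :=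
  exists_gen (pair_mem 0) (xs_zero 0)

section pair

variable {p : HH}

/-- synthesis operator -/
theorem synth (hp : IsGen phi p) (g : ℕ → ℂ) (hg : Summable fun n => ‖g n‖ ^ 2) :
    ∃ q : HH, ‖q‖ ^ 2 = ∑' n, ‖g n‖ ^ 2 ∧
      (∀ n, q.fst n = ∑ k ∈ range (n + 1), p.fst k * g (n - k)) ∧
      (∀ n, q.snd n = ∑ k ∈ range (n + 1), p.snd k * g (n - k)) := by
  have ho := hp.orthonormal
  have hO := ho.orthogonalFamily
  refine ⟨hO.linearIsometry (mk g hg), ?_, ?_, ?_⟩
  · rw [LinearIsometry.norm_map, E.norm_sq]; rfl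
  all_goals
    intro n
    have hs := hO.hasSum_linearIsometry (mk g hg)
  · have h1 := (ev1 n).hasSum hs
    have h2 : HasSum (fun k => (ev1 n) (LinearIsometry.toSpanSingleton ℂ HH (ho.1 k) ((mk g hg) k)))
        (∑ k ∈ range (n + 1), g k * p.fst (n - k)) := by
      have h3 : ∀ k, (ev1 n) (LinearIsometry.toSpanSingleton ℂ HH (ho.1 k) ((mk g hg) k))
          = if n < k then 0 else g k * p.fst (n - k) := by
        intro k
        rw [LinearIsometry.toSpanSingleton_apply, map_smul, ev1_apply, SH_iter_fst, S₁_iter]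
        split_ifs <;> simp
      simp only [h3]
      have h4 : HasSum (fun k => if n < k then (0 : ℂ) else g k * p.fst (n - k))
          (∑ k ∈ range (n + 1), if n < k then (0 : ℂ) else g k * p.fst (n - k)) :=
        hasSum_sum_of_ne_finset_zero (by
          intro k hk
          rw [mem_range] at hk
          rw [if_pos (by omega)])
      convert h4 using 1
      refine sum_congr rfl fun k hk => ?_
      have := mem_range.1 hk
      rw [if_neg (by omega)]
    have h5 := h1.unique h2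
    rw [ev1_apply] at h5
    rw [h5, ← Finset.sum_range_reflect]
    refine sum_congr rfl fun k hk => ?_
    have := mem_range.1 hk
    have e1 : n + 1 - 1 - k = n - k := by omega
    have e2 : n - (n - k) = k := by omega
    rw [e1, e2, mul_comm]
  · have h1 := (ev2 n).hasSum hs
    have h2 : HasSum (fun k => (ev2 n) (LinearIsometry.toSpanSingleton ℂ HH (ho.1 k) ((mk g hg) k)))
        (∑ k ∈ range (n + 1), g k * p.snd (n - k)) := by
      have h3 : ∀ k, (ev2 n) (LinearIsometry.toSpanSingleton ℂ HH (ho.1 k) ((mk g hg) k))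
          = if n < k then 0 else g k * p.snd (n - k) := by
        intro k
        rw [LinearIsometry.toSpanSingleton_apply, map_smul, ev2_apply, SH_iter_snd, S₁_iter]
        split_ifs <;> simp
      simp only [h3]
      have h4 : HasSum (fun k => if n < k then (0 : ℂ) else g k * p.snd (n - k))
          (∑ k ∈ range (n + 1), if n < k then (0 : ℂ) else g k * p.snd (n - k)) :=
        hasSum_sum_of_ne_finset_zero (by
          intro k hk
          rw [mem_range] at hk
          rw [if_pos (by omega)])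
      convert h4 using 1
      refine sum_congr rfl fun k hk => ?_
      have := mem_range.1 hk
      rw [if_neg (by omega)]
    have h5 := h1.unique h2
    rw [ev2_apply] at h5
    rw [h5, ← Finset.sum_range_reflect]
    refine sum_congr rfl fun k hk => ?_
    have := mem_range.1 hk
    have e1 : n + 1 - 1 - k = n - k := by omega
    have e2 : n - (n - k) = k := by omega
    rw [e1, e2, mul_comm]

theorem pythagorean (hp : IsGen phi p) (g : ℕ → ℂ) (hg : Summable fun n => ‖g n‖ ^ 2) :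
    Summable (fun n => ‖∑ k ∈ range (n + 1), p.fst k * g (n - k)‖ ^ 2) ∧
      Summable (fun n => ‖∑ k ∈ range (n + 1), p.snd k * g (n - k)‖ ^ 2) ∧
      (∑' n, ‖∑ k ∈ range (n + 1), p.fst k * g (n - k)‖ ^ 2) +
        (∑' n, ‖∑ k ∈ range (n + 1), p.snd k * g (n - k)‖ ^ 2) = ∑' n, ‖g n‖ ^ 2 := by
  obtain ⟨q, hq, h1, h2⟩ := synth hp g hg
  have e1 : (fun n => ‖∑ k ∈ range (n + 1), p.fst k * g (n - k)‖ ^ 2) = fun n => ‖q.fst n‖ ^ 2 := by
    funext n; rw [h1]
  have e2 : (fun n => ‖∑ k ∈ range (n + 1), p.snd k * g (n - k)‖ ^ 2) = fun n => ‖q.snd n‖ ^ 2 := by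
    funext n; rw [h2]
  rw [e1, e2]
  refine ⟨q.fst.summable, q.snd.summable, ?_⟩
  rw [← E.norm_sq, ← E.norm_sq, ← WithLp.prod_norm_sq_eq_of_L2, hq]

theorem inner_fst (u : HH) (g : E) : ⟪u, WithLp.toLp 2 (g, (0 : E))⟫_ℂ = ⟪u.fst, g⟫_ℂ := by
  rw [WithLp.prod_inner_apply]
  show ⟪u.fst, g⟫_ℂ + ⟪u.snd, (0 : E)⟫_ℂ = _
  rw [inner_zero_right, add_zero]

theorem inner_snd (u : HH) (g : E) : ⟪u, WithLp.toLp 2 ((0 : E), g)⟫_ℂ = ⟪u.snd, g⟫_ℂ := by
  rw [WithLp.prod_inner_apply]
  show ⟪u.fst, (0 : E)⟫_ℂ + ⟪u.snd, g⟫_ℂ = _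
  rw [inner_zero_right, zero_add]

theorem outer (hp : IsGen phi p) (g : ℕ → ℂ) (hg : Summable fun n => ‖g n‖ ^ 2)
    (h : ∀ j : ℕ, ∑' n, p.fst n * starRingEnd ℂ (g (n + j)) = 0) : g = 0 := by
  have h1 : ∀ j, ⟪SH^[j] p, WithLp.toLp 2 (mk g hg, (0 : E))⟫_ℂ = 0 := by
    intro j
    rw [inner_fst, SH_iter_fst, ← inner_conj_symm, lp.inner_eq_tsum]
    have h2 : ∑' i, ⟪(mk g hg) i, (S₁^[j] p.fst) i⟫_ℂ = 0 := by
      have hs := lp.summable_inner (𝕜 := ℂ) (mk g hg) (S₁^[j] p.fst)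
      rw [← hs.sum_add_tsum_nat_add j]
      have h3 : ∑ i ∈ range j, ⟪(mk g hg) i, (S₁^[j] p.fst) i⟫_ℂ = 0 := by
        apply sum_eq_zero
        intro i hi
        rw [S₁_iter, if_pos (mem_range.1 hi), inner_zero_right]
      rw [h3, zero_add, ← h j]
      refine tsum_congr fun i => ?_
      rw [S₁_iter_add, RCLike.inner_apply]
      rfl
    rw [h2, map_zero]
  have h2 := hp.orth_G h1
  funext i
  have h3 : ∀ N, ⟪Sp i (xE N), mk g hg⟫_ℂ = 0 := by
    intro N
    have h4 := h2 _ (SH_iter_mem (pair_mem N) i)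
    rw [inner_fst, SH_iter_fst, ← Sp_eq] at h4
    exact h4
  have h4 : Tendsto (fun N => ⟪Sp i (xE N), mk g hg⟫_ℂ) atTop (𝓝 ⟪Sp i one, mk g hg⟫_ℂ) :=
    (((Sp i).continuous.tendsto _).comp xE_tendsto).inner tendsto_const_nhds
  have h5 : ⟪Sp i one, mk g hg⟫_ℂ = 0 := by
    simp only [h3] at h4
    exact (tendsto_nhds_unique h4 tendsto_const_nhds)
  rw [lp.inner_eq_tsum, tsum_eq_single i] at h5
  · rw [Sp_apply, if_neg (lt_irrefl _), Nat.sub_self] at h5
    simpa [one, P_apply] using h5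
  · intro k hk
    rw [Sp_apply]
    split_ifs with h6
    · simp
    · have h7 : k - i ≠ 0 := by omega
      simp [one, P_apply, h7]

theorem not_lub (hp : IsGen phi p)
    (h : IsLUB {x : ℝ | ∃ g : ℕ → ℂ, Summable (fun n => ‖g n‖ ^ 2) ∧
          x = (∑' n, ‖ff n + ∑ k ∈ range (n + 1), p.snd k * g (n - k)‖ ^ 2) - ∑' n, ‖g n‖ ^ 2}
        ((∑' m, ‖ff m‖ ^ 2) + ∑' _m : ℕ, ‖(0 : ℂ)‖ ^ 2)) : False := by
  set F : E := mk ff ff_summable with hF
  have hFn : ∑' m, ‖ff m‖ ^ 2 = ‖F‖ ^ 2 := by rw [E.norm_sq]; rfl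
  have h1 : ∀ j : ℕ, ∀ c : ℂ, ‖F + c • Sp j p.snd‖ ^ 2 - ‖c‖ ^ 2 ≤ ‖F‖ ^ 2 := by
    intro j c
    have hsum : Summable fun i : ℕ => ‖(if i = j then c else 0 : ℂ)‖ ^ 2 := by
      refine summable_of_ne_finset_zero (s := {j}) ?_
      intro i hi
      rw [mem_singleton] at hi
      simp [hi]
    have h2 := h.1 ⟨fun i => if i = j then c else 0, hsum, rfl⟩
    have h3 : ∑' i : ℕ, ‖(if i = j then c else 0 : ℂ)‖ ^ 2 = ‖c‖ ^ 2 := by
      rw [tsum_eq_single j]
      · simp
      · intro i hi; simp [hi]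
    have h4 : ∑' i, ‖ff i + ∑ k ∈ range (i + 1), p.snd k * (if i - k = j then c else 0)‖ ^ 2
        = ‖F + c • Sp j p.snd‖ ^ 2 := by
      rw [E.norm_sq]
      refine tsum_congr fun i => ?_
      rw [lp.coeFn_add, Pi.add_apply, lp.coeFn_smul, Pi.smul_apply, Sp_apply, smul_eq_mul, hF,
        mk_apply]
      congr 3
      split_ifs with hij
      · rw [mul_zero]
        apply sum_eq_zero
        intro k hk
        have := mem_range.1 hk
        rw [if_neg (by omega), mul_zero]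
      · rw [sum_eq_single (i - j)]
        · rw [if_pos (by omega), mul_comm]
        · intro k hk hk2
          have := mem_range.1 hk
          rw [if_neg (by omega), mul_zero]
        · intro hk
          rw [mem_range] at hk
          omega
    simp only [norm_zero] at h2
    rw [h3, h4, hFn] at h2
    simpa using h2
  have h2 : ∀ j : ℕ, ⟪Sp j p.snd, F⟫_ℂ = 0 := by
    intro j
    by_contra hne
    set z := ⟪F, Sp j p.snd⟫_ℂ with hz
    have hz0 : z ≠ 0 := by
      intro h0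
      apply hne
      rw [← inner_conj_symm, ← hz, h0, map_zero]
    have hzpos : 0 < ‖z‖ ^ 2 := by positivity
    -- take `c = t * conj z`
    have h3 : ∀ t : ℝ, 0 < t → 2 * t * ‖z‖ ^ 2 ≤ t ^ 2 * ‖z‖ ^ 2 := by
      intro t ht
      have h4 := h1 j ((t : ℂ) * conj z)
      rw [@norm_add_sq ℂ, inner_smul_right, ← hz] at h4
      have h5 : RCLike.re ((t : ℂ) * conj z * z) = t * ‖z‖ ^ 2 := by
        rw [mul_assoc, Complex.conj_mul', ← Complex.ofReal_pow, ← Complex.ofReal_mul]
        exact Complex.ofReal_re _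
      have h6 : ‖(t : ℂ) * conj z‖ ^ 2 = t ^ 2 * ‖z‖ ^ 2 := by
        rw [norm_mul, Complex.norm_real, RCLike.norm_conj, mul_pow, Real.norm_eq_abs, sq_abs]
      rw [h5, h6] at h4
      have h7 : 0 ≤ ‖((t : ℂ) * conj z) • Sp j p.snd‖ ^ 2 := by positivity
      linarith
    have h4 := h3 1 one_pos
    linarith
  have h3 : ∀ j, ⟪SH^[j] p, WithLp.toLp 2 ((0 : E), F)⟫_ℂ = 0 := by
    intro j
    rw [inner_snd, SH_iter_snd, ← Sp_eq]; exact h2 j
  have h4 := hp.orth_G h3 _ (pair_mem 0)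
  rw [inner_snd] at h4
  have h5 : ⟪PhE 0, F⟫_ℂ = 1 := by
    rw [lp.inner_eq_tsum, tsum_eq_single 0]
    · show ⟪(PhE 0) 0, ff 0⟫_ℂ = 1
      rw [ff_zero]
      simp [PhE, Ph]
    · intro k hk
      simp [PhE, Ph, PowerSeries.coeff_one, hk]
  have h6 : ⟪PhE 0, F⟫_ℂ = 0 := h4
  rw [h5] at h6
  exact one_ne_zero h6

end pair

end Pool.Agent.H270R3.BR
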